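import Mathlib
import Pool.Agent.Helper705.Rad.RVerbal
import Pool.Agent.Y448.Rad.Two
import Pool.Agent.Y448.Rad.One

set_option autoImplicit false

/-!
# Radicable verbal subgroups in relatively free groups of every rank at least two

`Verbal W G` (in `Pool/Agent/Helper705/Rad/RVerbal.lean`) is the subgroup generated by the values
in `G` of the words of `W`.

There is a soluble variety, with the set of laws `U`, and a single word `v` such that in the
relatively free group `F = FreeGroup α ⧸ U(FreeGroup α)` on an arbitrary set `α` the verbal subgroup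
`v(F)` is abelian, torsion-free and radicable (with unique roots), that is, a vector space over the
rational numbers; it is nontrivial exactly if `α` has at least two elements, and then it is of
infinite dimension; and each value `h` of `v` is conjugate in `F` to all its powers `h ^ n`,
`n ≥ 1`. (For a set `α` with at most one element the group `F` is cyclic, whatever the variety, and
has no nontrivial radicable subgroup.)
-/

namespace Pool.Agent.Results.MP_eeceb3_al.RankTwoVectorSpace

open Pool.Agent.Helper705.Rad Pool.Agent.Y448.Rad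

/-- There are a set of words `U`, a word `v` and a number `d` such that for every set `α` the
relatively free group `F = FreeGroup α ⧸ U(FreeGroup α)` is soluble of derived length at most `d`,
its verbal subgroup `v(F)` is abelian and each element of `v(F)` has, for each `n ≥ 1`, exactly one
`n`-th root in `v(F)`; every value of `v` in `F` is conjugate to all its powers with positive
exponent; `v(F)` is nontrivial if and only if `α` has at least two elements, and then it contains an
infinite sequence of elements `y i` without a nontrivial multiplicative relation. -/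
theorem result :
    ∃ (U : Set (FreeGroup ℕ)) (v : FreeGroup ℕ) (d : ℕ), ∀ α : Type,
      derivedSeries (FreeGroup α ⧸ Verbal U (FreeGroup α)) d = ⊥ ∧
      (∀ x ∈ Verbal {v} (FreeGroup α ⧸ Verbal U (FreeGroup α)),
        ∀ y ∈ Verbal {v} (FreeGroup α ⧸ Verbal U (FreeGroup α)), x * y = y * x) ∧
      (∀ x ∈ Verbal {v} (FreeGroup α ⧸ Verbal U (FreeGroup α)), ∀ n : ℕ, 1 ≤ n →
        ∃! y, y ∈ Verbal {v} (FreeGroup α ⧸ Verbal U (FreeGroup α)) ∧ y ^ n = x) ∧
      (∀ φ : FreeGroup ℕ →* FreeGroup α ⧸ Verbal U (FreeGroup α), ∀ n : ℕ, 1 ≤ n →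
        IsConj (φ v) (φ v ^ n)) ∧
      (Verbal {v} (FreeGroup α ⧸ Verbal U (FreeGroup α)) ≠ ⊥ ↔ Nontrivial α) ∧
      (Nontrivial α → ∃ y : ℕ → FreeGroup α ⧸ Verbal U (FreeGroup α),
        (∀ i, y i ∈ Verbal {v} (FreeGroup α ⧸ Verbal U (FreeGroup α))) ∧
        ∀ (N : ℕ) (k : ℕ → ℤ), ((List.range N).map (fun i => y i ^ k i)).prod = 1 →
          ∀ i < N, k i = 0) := by
  obtain ⟨d, hd⟩ := (inferInstance : Group.IsSolvable DL.GG).solvable
  obtain ⟨e, he⟩ := sol_KK (K := DL.GG) d hd
  have hr := fun (a : ℕ → DL.GG) (m : ℕ) (hm : 1 ≤ m) => gen_root DL two_SS zero_YY pin_YY a m hm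
  have hc := gen_comm DL two_SS
  have ht := tf_K DL two_SS
  have hR : ∀ (p : ℕ → KK DL.GG) (m : ℕ), 1 ≤ m → rootW (cm p) m = vW (cm p) :=
    fun p m hm => KK_root hr p m hm
  have hC : ∀ p p' : ℕ → KK DL.GG, commG (vW (cm p)) (vW (cm p')) :=
    fun p p' => KK_comm hc p p'
  have hT : ∀ x ∈ Verbal {vC} (KK DL.GG), ∀ n : ℕ, 1 ≤ n → x ^ n = 1 → x = 1 :=
    fun x hx n hn h => KK_tf (fun x hx n hn h => ht x hx n hn h) x hx n hn h
  refine ⟨Laws (KK DL.GG), vC, e, fun α => ?_⟩
  have hR' := fun (p : ℕ → FreeGroup α ⧸ Verbal (Laws (KK DL.GG)) (FreeGroup α)) (m : ℕ)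
    (hm : 1 ≤ m) => relC_root α hR p m hm
  have hC' := fun (p p' : ℕ → FreeGroup α ⧸ Verbal (Laws (KK DL.GG)) (FreeGroup α)) =>
    relC_comm α hC p p'
  have hI : Nontrivial α → ∃ p : ℕ → FreeGroup α ⧸ Verbal (Laws (KK DL.GG)) (FreeGroup α),
      Indep (yW (cm p)) := by
    rintro ⟨s, t, hst⟩
    exact relC_indep α (xK DL.GG) (yK aL) (KK_indep aL indep_K) s t hst
  refine ⟨rel_sol α e he, ?_, ?_, ?_, ⟨?_, ?_⟩, ?_⟩
  · intro x hx y hy
    exact C_comm hC' x y hx hy
  · intro x hx n hn
    obtain ⟨y, hy, hy'⟩ := C_root hR' hC' x hx n hn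
    refine ⟨y, ⟨hy, hy'⟩, ?_⟩
    rintro z ⟨hz, hz'⟩
    have hzy : (z * y⁻¹) ^ n = 1 := by
      have hcm : Commute z y⁻¹ := C_comm hC' z y⁻¹ hz (inv_mem hy)
      rw [hcm.mul_pow, inv_pow, hz', hy', mul_inv_cancel]
    have h1 := relC_tf α hT (z * y⁻¹) (mul_mem hz (inv_mem hy)) n hn hzy
    exact mul_inv_eq_one.mp h1
  · intro φ n hn
    rw [vC_val]
    exact C_conj hR' _ n hn
  · intro hne
    by_contra hα
    rw [not_nontrivial_iff_subsingleton] at hα
    exact hne (rank_one _ α hα _ (fun h hh n hn => C_root hR' hC' h hh n hn))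
  · intro hα hbot
    obtain ⟨p, hp⟩ := hI hα
    have h1 := yW_mem p 0
    rw [hbot, Subgroup.mem_bot] at h1
    exact indep_ne _ hp 0 h1
  · intro hα
    obtain ⟨p, hp⟩ := hI hα
    exact ⟨yW (cm p), fun i => yW_mem p i, hp⟩

end Pool.Agent.Results.MP_eeceb3_al.RankTwoVectorSpace
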